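import Pool.Agent.NH22.CF2

/-!
# `π + e`, `π - e`, `π e`, `π / e` are all irrational, or `π` has an atypical continued fraction

Let `a_0, a_1, a_2, …` be the partial quotients of the regular continued fraction of `π`.

Either the four numbers `π + e`, `π - e`, `π e`, `π / e` are all irrational, or there is a length `W`
such that `max (a_n, …, a_(n+W-1)) → ∞` for `n → ∞`.

So the four numbers are irrational if for every `W` there are `t` and infinitely many windows of
length `W` in the continued fraction of `π` with all partial quotients `< t`; almost all real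
numbers have this property (already with `t = 2`: runs of `1` of every length).

The same is proved for every irrational number `x` in place of `π`, and for all the numbers
`(a + b x + c e + d x e)` at once: in the first case none of them vanishes, for rational
`a, b, c, d` that are not all zero.
-/

set_option autoImplicit false

namespace Pool.Agent.Results.MP_a2f59b_nt.FourIrrationalOrWindows

/-- the partial quotient `a_n` of the regular continued fraction `x = [a_0; a_1, a_2, …]`: the
integer part of the `n`-th iterate of `y ↦ 1 / (y - ⌊y⌋)` at `x` -/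
noncomputable def partialQuotient (x : ℝ) (n : ℕ) : ℤ := ⌊(fun y : ℝ => (Int.fract y)⁻¹)^[n] x⌋

/-- there is `W` such that for every `t`, from some point on, every window of `W` consecutive
partial quotients contains one that is at least `t` -/
def WindowsUnbounded (x : ℝ) : Prop :=
  ∃ W : ℕ, ∀ t : ℤ, ∃ N : ℕ, ∀ n : ℕ, N ≤ n → ∃ i < W, t ≤ partialQuotient x (n + i)

theorem main_int (x : ℝ) (hx : Irrational x) (h : ¬ WindowsUnbounded x) (a b c d : ℤ)
    (hne : b ≠ 0 ∨ d ≠ 0) : (a : ℝ) + b * x + c * Real.exp 1 + d * (x * Real.exp 1) ≠ 0 := by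
  intro h0
  apply h
  refine Pool.Agent.NH22.CF.windows hx (a := -a) (b := -c) (c := b) (d := d) hne ?_
  push_cast
  linarith

theorem main (x : ℝ) (hx : Irrational x) (h : ¬ WindowsUnbounded x) (a b c d : ℚ)
    (h0 : (a : ℝ) + b * x + c * Real.exp 1 + d * (x * Real.exp 1) = 0) :
    a = 0 ∧ b = 0 ∧ c = 0 ∧ d = 0 := by
  set D : ℕ := a.den * b.den * c.den * d.den with hD
  have hD0 : (D : ℤ) ≠ 0 := by
    rw [hD]
    have h1 := a.den_nz
    have h2 := b.den_nz
    have h3 := c.den_nz
    have h4 := d.den_nz
    exact_mod_cast mul_ne_zero (mul_ne_zero (mul_ne_zero h1 h2) h3) h4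
  have ha : (a : ℝ) * a.den = a.num := by exact_mod_cast Rat.mul_den_eq_num a
  have hb : (b : ℝ) * b.den = b.num := by exact_mod_cast Rat.mul_den_eq_num b
  have hc : (c : ℝ) * c.den = c.num := by exact_mod_cast Rat.mul_den_eq_num c
  have hd : (d : ℝ) * d.den = d.num := by exact_mod_cast Rat.mul_den_eq_num d
  set a' : ℤ := a.num * (b.den * c.den * d.den) with ha'
  set b' : ℤ := b.num * (a.den * c.den * d.den) with hb'
  set c' : ℤ := c.num * (a.den * b.den * d.den) with hc'
  set d' : ℤ := d.num * (a.den * b.den * c.den) with hd'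
  have h1 : (a' : ℝ) + b' * x + c' * Real.exp 1 + d' * (x * Real.exp 1) = 0 := by
    have e : (a' : ℝ) + b' * x + c' * Real.exp 1 + d' * (x * Real.exp 1) =
        (a.den * b.den * c.den * d.den) *
          ((a : ℝ) + b * x + c * Real.exp 1 + d * (x * Real.exp 1)) := by
      rw [ha', hb', hc', hd']
      push_cast
      rw [← ha, ← hb, ← hc, ← hd]
      ring
    rw [e, h0, mul_zero]
  have hbd : b' = 0 ∧ d' = 0 := by
    by_contra hcon
    have hne : b' ≠ 0 ∨ d' ≠ 0 := by tauto
    exact main_int x hx h a' b' c' d' hne h1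
  have hdn : ∀ r : ℚ, ((r.den : ℕ) : ℤ) ≠ 0 := fun r => by exact_mod_cast r.den_nz
  have hb0 : b = 0 := by
    have := hbd.1
    rw [hb'] at this
    rcases mul_eq_zero.mp this with h2 | h2
    · exact Rat.num_eq_zero.mp h2
    · exfalso
      exact mul_ne_zero (mul_ne_zero (hdn a) (hdn c)) (hdn d) h2
  have hd0 : d = 0 := by
    have := hbd.2
    rw [hd'] at this
    rcases mul_eq_zero.mp this with h2 | h2
    · exact Rat.num_eq_zero.mp h2
    · exfalso
      exact mul_ne_zero (mul_ne_zero (hdn a) (hdn b)) (hdn c) h2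
  rw [hb0, hd0] at h0
  have := Pool.Agent.NH22.Lin.rel_e (a := a) (b := c) (by push_cast at h0 ⊢; linarith)
  exact ⟨this.1, hb0, this.2, hd0⟩

theorem four (x : ℝ) (h : ∀ a b c d : ℚ,
      (a : ℝ) + b * x + c * Real.exp 1 + d * (x * Real.exp 1) = 0 →
        a = 0 ∧ b = 0 ∧ c = 0 ∧ d = 0) :
    Irrational (x + Real.exp 1) ∧ Irrational (x - Real.exp 1) ∧ Irrational (x * Real.exp 1) ∧
      Irrational (x / Real.exp 1) := by
  refine ⟨?_, ?_, ?_, ?_⟩
  · rintro ⟨r, hr⟩
    have := h (-r) 1 1 0 (by push_cast; rw [hr]; ring)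
    simp at this
  · rintro ⟨r, hr⟩
    have := h (-r) 1 (-1) 0 (by push_cast; rw [hr]; ring)
    simp at this
  · rintro ⟨r, hr⟩
    have := h (-r) 0 0 1 (by push_cast; rw [hr]; ring)
    simp at this
  · rintro ⟨r, hr⟩
    have he := Real.exp_ne_zero 1
    have := h 0 1 (-r) 0 (by push_cast; rw [hr]; field_simp; ring)
    simp at this

/-- (1) For every irrational `x` one of these holds: `1, x, e, x e` are linearly independent over
`ℚ`; or there is `W` such that for every `t` all but finitely many of the windows
`a_n, …, a_(n+W-1)` of partial quotients of `x` contain a partial quotient `≥ t`.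
(2) Either `π + e`, `π - e`, `π e`, `π / e` are all irrational, or `π` has the second property. -/
theorem result :
    (∀ x : ℝ, Irrational x → WindowsUnbounded x ∨ ∀ a b c d : ℚ,
      (a : ℝ) + b * x + c * Real.exp 1 + d * (x * Real.exp 1) = 0 →
        a = 0 ∧ b = 0 ∧ c = 0 ∧ d = 0) ∧
    (WindowsUnbounded Real.pi ∨
      (Irrational (Real.pi + Real.exp 1) ∧ Irrational (Real.pi - Real.exp 1) ∧
        Irrational (Real.pi * Real.exp 1) ∧ Irrational (Real.pi / Real.exp 1))) := by
  have h1 : ∀ x : ℝ, Irrational x → WindowsUnbounded x ∨ ∀ a b c d : ℚ,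
      (a : ℝ) + b * x + c * Real.exp 1 + d * (x * Real.exp 1) = 0 →
        a = 0 ∧ b = 0 ∧ c = 0 ∧ d = 0 := by
    intro x hx
    by_cases h : WindowsUnbounded x
    · exact Or.inl h
    · exact Or.inr fun a b c d h0 => main x hx h a b c d h0
  refine ⟨h1, ?_⟩
  rcases h1 Real.pi irrational_pi with h | h
  · exact Or.inl h
  · exact Or.inr (four _ h)

end Pool.Agent.Results.MP_a2f59b_nt.FourIrrationalOrWindows
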