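import Pool.Agent.NH22.JM2

/-!
# Joint irrationality measures for `π + e`, `π - e`, `π e`, `π / e`

At most one of the four numbers is rational. We prove explicit quantitative forms: for any two
of the four numbers, `x` and `y`, and all rational numbers `a`, `b` with the least common
denominator `D`,

`max(|x - a|, |y - b|) ≥ c(ε) D^(-κ-ε)`,

where `κ = 3` for the pairs `{π + e, π e}` and `{π - e, π e}` and `κ = 2` for the other four pairs.
The same is true with any real number `t ≠ 0, e, -e` in place of `π`.

The proof uses the optimal measures of linear independence of `1, e, e²`, of `1, e` and of `1, e²`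
(`Pool.Agent.W472.AC.e_meas` of the starting files).
-/

set_option autoImplicit false

namespace Pool.Agent.Results.MP_a2f59b_nt.JointIrrationalityMeasure

/-- the numbers `t + e`, `t - e`, `t e`, `t / e` -/
noncomputable def num (t : ℝ) : Fin 4 → ℝ :=
  ![t + Real.exp 1, t - Real.exp 1, t * Real.exp 1, t / Real.exp 1]

/-- the exponent: `3` for the pairs of `t e` with `t + e` and with `t - e`, and `2` for the others -/
def kappa (i j : Fin 4) : ℝ :=
  if (i = 2 ∧ (j = 0 ∨ j = 1)) ∨ (j = 2 ∧ (i = 0 ∨ i = 1)) then 3 else 2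

/-- Let `t` be a real number different from `0`, `e`, `-e` (for instance `t = π`) and let `x`, `y` be
any two of the four numbers `t + e`, `t - e`, `t e`, `t / e`. For every `ε > 0` there is `c > 0` such
that `max(|x - a|, |y - b|) ≥ c D^(-κ-ε)` for all rational numbers `a`, `b`, where `D` is the least
common denominator of `a` and `b` and `κ = 3` for the pairs `{t + e, t e}`, `{t - e, t e}` and
`κ = 2` for the other pairs. -/
theorem result (t : ℝ) (h0 : t ≠ 0) (h1 : t ≠ Real.exp 1) (h2 : t ≠ -Real.exp 1) :
    ∀ i j : Fin 4, i ≠ j → ∀ ε : ℝ, 0 < ε → ∃ c : ℝ, 0 < c ∧ ∀ a b : ℚ,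
      c * ((a.den.lcm b.den : ℕ) : ℝ) ^ (-(kappa i j + ε)) ≤ max |num t i - a| |num t j - b| := by
  have he : Real.exp 1 ≠ 0 := (Real.exp_pos 1).ne'
  have hp : t + Real.exp 1 ≠ 0 := fun h => h2 (by linarith)
  have hm : t - Real.exp 1 ≠ 0 := fun h => h1 (by linarith)
  have p01 : Pool.Agent.NH22.JM.PairMeas (t + Real.exp 1) (t - Real.exp 1) 2 :=
    Pool.Agent.NH22.JM.lin2 (by ring)
  have p02 : Pool.Agent.NH22.JM.PairMeas (t + Real.exp 1) (t * Real.exp 1) 3 :=
    Pool.Agent.NH22.JM.quad (Or.inl rfl) (by ring)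
  have p12 : Pool.Agent.NH22.JM.PairMeas (t - Real.exp 1) (t * Real.exp 1) 3 :=
    Pool.Agent.NH22.JM.quad (Or.inr rfl) (by ring)
  have p03 : Pool.Agent.NH22.JM.PairMeas (t + Real.exp 1) (t / Real.exp 1) 2 :=
    Pool.Agent.NH22.JM.lin (r := 1) (Or.inl rfl) (by field_simp) hp
  have p13 : Pool.Agent.NH22.JM.PairMeas (t - Real.exp 1) (t / Real.exp 1) 2 :=
    Pool.Agent.NH22.JM.lin (r := -1) (Or.inr rfl) (by field_simp; ring) hm
  have p23 : Pool.Agent.NH22.JM.PairMeas (t * Real.exp 1) (t / Real.exp 1) 2 :=
    Pool.Agent.NH22.JM.lin3 (by field_simp) (mul_ne_zero h0 he)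
  have key : ∀ i j : Fin 4, i ≠ j → Pool.Agent.NH22.JM.PairMeas (num t i) (num t j) (kappa i j) := by
    intro i j hij
    fin_cases i <;> fin_cases j
    · exact absurd rfl hij
    · exact p01
    · have e : kappa 0 2 = 3 := by unfold kappa; rw [if_pos (by decide)]
      exact e ▸ p02
    · have e : kappa 0 3 = 2 := by unfold kappa; rw [if_neg (by decide)]
      exact e ▸ p03
    · exact p01.symm
    · exact absurd rfl hij
    · have e : kappa 1 2 = 3 := by unfold kappa; rw [if_pos (by decide)]
      exact e ▸ p12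
    · have e : kappa 1 3 = 2 := by unfold kappa; rw [if_neg (by decide)]
      exact e ▸ p13
    · have e : kappa 2 0 = 3 := by unfold kappa; rw [if_pos (by decide)]
      exact e ▸ p02.symm
    · have e : kappa 2 1 = 3 := by unfold kappa; rw [if_pos (by decide)]
      exact e ▸ p12.symm
    · exact absurd rfl hij
    · have e : kappa 2 3 = 2 := by unfold kappa; rw [if_neg (by decide)]
      exact e ▸ p23
    · have e : kappa 3 0 = 2 := by unfold kappa; rw [if_neg (by decide)]
      exact e ▸ p03.symm
    · have e : kappa 3 1 = 2 := by unfold kappa; rw [if_neg (by decide)]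
      exact e ▸ p13.symm
    · have e : kappa 3 2 = 2 := by unfold kappa; rw [if_neg (by decide)]
      exact e ▸ p23.symm
    · exact absurd rfl hij
  intro i j hij ε hε
  exact key i j hij ε hε

end Pool.Agent.Results.MP_a2f59b_nt.JointIrrationalityMeasure
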