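import Pool.Agent.NH22.RG2

/-!
# Exponent gaps for the forms `P(e) + π Q(e)`

Let `x` be a real number and consider the values `P(e) + x Q(e)`, where `P` and `Q` are integer
polynomials of degree at most `p` and `q`, not both zero, with coefficients of absolute value at
most `H`. There are `p + q + 2` coefficients, so the pigeonhole principle gives forms with
`|P(e) + x Q(e)| ≤ C H^(-(p+q+1))`.

If there is a relation `P(e) + x Q(e) = 0` then all the nonvanishing values are at least
`c H^(-(p+q)-ε)`, one less in the exponent. Conversely the existence of a relation follows from a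
lower bound `c H^(-w)` of the nonvanishing values with any `w < p + q + 1`, and also from the
existence, for all large `H`, of values of absolute value at most `H^(-w)` with any
`w > 2 (p + q) + 1`.

For `x = π` and `p = q = 1` these are the forms `a + b e + c π + d π e`; a relation exists if one of
the numbers `π + e`, `π - e`, `π e`, `π / e` is rational.

The proof uses the measure of linear independence of the powers of `e` with the optimal exponent
(`Pool.Agent.W472.AC.e_measP` of the starting files).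
-/

set_option autoImplicit false

namespace Pool.Agent.Results.MP_a2f59b_nt.RationalFunctionGap

open Polynomial

/-- the value `P(e) + x Q(e)` -/
noncomputable def value (x : ℝ) (P Q : ℤ[X]) : ℝ :=
  aeval (Real.exp 1) P + x * aeval (Real.exp 1) Q

/-- `P` and `Q` are not both zero, `P` has degree at most `p` and `Q` has degree at most `q` -/
def Pair (p q : ℕ) (P Q : ℤ[X]) : Prop :=
  ¬ (P = 0 ∧ Q = 0) ∧ P.natDegree ≤ p ∧ Q.natDegree ≤ q

/-- all the coefficients of `P` and `Q` are at most `H` in absolute value -/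
def Bounded (H : ℝ) (P Q : ℤ[X]) : Prop :=
  ∀ i, |(P.coeff i : ℝ)| ≤ H ∧ |(Q.coeff i : ℝ)| ≤ H

/-- For all `p`, `q` and all real numbers `x` the following statements are equivalent:
(1) `P(e) + x Q(e) = 0` for some integer polynomials `P`, `Q`, not both zero, of degrees at most
`p`, `q`;
(2) there is `w > 2 (p + q) + 1` such that for all large `X` there are such `P`, `Q` with
coefficients at most `X` and `|P(e) + x Q(e)| ≤ X^(-w)`;
(3) there are `w < p + q + 1` and `c > 0` such that `|P(e) + x Q(e)| ≥ c H^(-w)` for all such `P`,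
`Q` with coefficients at most `H` and `P(e) + x Q(e) ≠ 0`;
(4) for every `ε > 0` there is `c > 0` such that `|P(e) + x Q(e)| ≥ c H^(-(p+q)-ε)` for all such
`P`, `Q` with coefficients at most `H` and `P(e) + x Q(e) ≠ 0`.

If one of the numbers `π + e`, `π - e`, `π e`, `π / e` is rational then (1) holds for `x = π` and
`p = q = 1`. -/
theorem result : (∀ (p q : ℕ) (x : ℝ), List.TFAE [
    ∃ P Q : ℤ[X], Pair p q P Q ∧ value x P Q = 0,
    ∃ w : ℝ, 2 * ((p : ℝ) + q) + 1 < w ∧ ∃ X₀ : ℝ, ∀ X : ℝ, X₀ ≤ X → ∃ P Q : ℤ[X], Pair p q P Q ∧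
      Bounded X P Q ∧ |value x P Q| ≤ X ^ (-w),
    ∃ w : ℝ, w < p + q + 1 ∧ ∃ c : ℝ, 0 < c ∧ ∀ P Q : ℤ[X], Pair p q P Q → ∀ H : ℝ,
      Bounded H P Q → value x P Q ≠ 0 → c * H ^ (-w) ≤ |value x P Q|,
    ∀ ε : ℝ, 0 < ε → ∃ c : ℝ, 0 < c ∧ ∀ P Q : ℤ[X], Pair p q P Q → ∀ H : ℝ,
      Bounded H P Q → value x P Q ≠ 0 → c * H ^ (-((p : ℝ) + q + ε)) ≤ |value x P Q|]) ∧
    (¬ Irrational (Real.pi + Real.exp 1) ∨ ¬ Irrational (Real.pi - Real.exp 1) ∨
      ¬ Irrational (Real.pi * Real.exp 1) ∨ ¬ Irrational (Real.pi / Real.exp 1) →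
      ∃ P Q : ℤ[X], Pair 1 1 P Q ∧ value Real.pi P Q = 0) := by
  constructor
  · intro p q x
    tfae_have 1 → 4 := by
      intro h ε hε
      obtain ⟨c, hc, h1⟩ := Pool.Agent.NH22.RG.lower h ε hε
      exact ⟨c, hc, fun P Q hPQ H hb hv => h1 P Q hPQ H (fun i => (hb i).1) (fun i => (hb i).2) hv⟩
    tfae_have 4 → 3 := by
      intro h
      obtain ⟨c, hc, h1⟩ := h (1 / 2) (by norm_num)
      exact ⟨(p : ℝ) + q + 1 / 2, by linarith, c, hc, h1⟩
    tfae_have 3 → 1 := by
      rintro ⟨w, hw, c, hc, h⟩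
      exact Pool.Agent.NH22.RG.rel_of_lower hw hc
        (fun P Q hPQ H hb1 hb2 hv => h P Q hPQ H (fun i => ⟨hb1 i, hb2 i⟩) hv)
    tfae_have 1 → 2 := by
      rintro ⟨P, Q, hPQ, h0⟩
      obtain ⟨H₁, hH₁, hb₁⟩ := Pool.Agent.NH22.RG.exists_bdd P
      obtain ⟨H₂, hH₂, hb₂⟩ := Pool.Agent.NH22.RG.exists_bdd Q
      refine ⟨2 * ((p : ℝ) + q) + 2, by linarith, max H₁ H₂, fun X hX => ⟨P, Q, hPQ, fun i =>
        ⟨(hb₁ i).trans ((le_max_left _ _).trans hX), (hb₂ i).trans ((le_max_right _ _).trans hX)⟩,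
        ?_⟩⟩
      rw [h0, abs_zero]
      have h1 : H₁ ≤ max H₁ H₂ := le_max_left _ _
      have : 0 ≤ X := by linarith
      positivity
    tfae_have 2 → 1 := by
      rintro ⟨w, hw, X₀, h⟩
      refine Pool.Agent.NH22.RG.rel_of_uniform hw ⟨⌈X₀⌉₊, fun n hn => ?_⟩
      have hn2 : X₀ ≤ n := (Nat.le_ceil X₀).trans (by exact_mod_cast hn)
      obtain ⟨P, Q, hPQ, hb, hv⟩ := h n hn2
      exact ⟨P, Q, hPQ, fun i => (hb i).1, fun i => (hb i).2, hv⟩
    tfae_finish
  · have hrat : ∀ z : ℝ, ¬ Irrational z → ∃ a b : ℤ, b ≠ 0 ∧ (b : ℝ) * z = a := by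
      intro z hz
      rw [Irrational, not_not] at hz
      obtain ⟨r, hr⟩ := hz
      refine ⟨r.num, r.den, by exact_mod_cast r.den_nz, ?_⟩
      have h1 : (r : ℝ) = r.num / r.den := by exact_mod_cast (Rat.num_div_den r).symm
      have h2 : ((r.den : ℕ) : ℝ) ≠ 0 := by exact_mod_cast r.den_nz
      rw [← hr, h1]
      push_cast
      field_simp
    have hdeg : ∀ a b : ℤ, (C a + C b * X : ℤ[X]).natDegree ≤ 1 := by
      intro a b
      refine (natDegree_add_le _ _).trans (max_le ?_ ?_)
      · rw [natDegree_C]; norm_num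
      · exact (natDegree_C_mul_le b X).trans natDegree_X_le
    have hne : ∀ a b : ℤ, b ≠ 0 → (C a + C b * X : ℤ[X]) ≠ 0 := by
      intro a b hb h0
      have h1 := congrArg (fun R : ℤ[X] => R.coeff 1) h0
      simp only [coeff_add, coeff_C_mul, coeff_X_one, coeff_C_ne_zero one_ne_zero, coeff_zero] at h1
      exact hb (by linarith)
    have hval : ∀ a b : ℤ, aeval (Real.exp 1) (C a + C b * X : ℤ[X]) = a + b * Real.exp 1 := by
      intro a b
      simp
    have hconst : ∀ b : ℤ, (C b : ℤ[X]).natDegree ≤ 1 := by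
      intro b
      rw [natDegree_C]; norm_num
    rintro (h | h | h | h)
    · obtain ⟨a, b, hb, hz⟩ := hrat _ h
      refine ⟨C (-a) + C b * X, C b, ⟨fun h0 => hne _ _ hb h0.1, hdeg _ _, hconst b⟩, ?_⟩
      unfold value
      rw [hval, aeval_C]
      push_cast
      simp only [algebraMap_int_eq, eq_intCast]
      linarith
    · obtain ⟨a, b, hb, hz⟩ := hrat _ h
      refine ⟨C (-a) + C (-b) * X, C b, ⟨fun h0 => hne _ _ (neg_ne_zero.mpr hb) h0.1,
        hdeg _ _, hconst b⟩, ?_⟩
      unfold value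
      rw [hval, aeval_C]
      push_cast
      simp only [algebraMap_int_eq, eq_intCast]
      linarith
    · obtain ⟨a, b, hb, hz⟩ := hrat _ h
      refine ⟨C (-a), C 0 + C b * X, ⟨fun h0 => hne _ _ hb h0.2, hconst _, hdeg _ _⟩, ?_⟩
      unfold value
      rw [hval, aeval_C]
      push_cast
      simp only [algebraMap_int_eq, eq_intCast]
      push_cast
      linarith
    · obtain ⟨a, b, hb, hz⟩ := hrat _ h
      refine ⟨C 0 + C (-a) * X, C b, ⟨?_, hdeg _ _, hconst b⟩, ?_⟩
      · rintro ⟨-, h0⟩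
        exact hb (by simpa using h0)
      · unfold value
        rw [hval, aeval_C]
        have he : Real.exp 1 ≠ 0 := (Real.exp_pos 1).ne'
        have h1 : (b : ℝ) * Real.pi = a * Real.exp 1 := by
          rw [← hz]
          field_simp
        push_cast
        simp only [algebraMap_int_eq, eq_intCast]
        linarith

end Pool.Agent.Results.MP_a2f59b_nt.RationalFunctionGap
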