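import Pool.Agent.NH22.TwoSeq

/-!
# Two explicit sequences of integers for `π + e`, `π - e`, `π e`, `π / e`

Let `A_n / B_n` be the convergents `1, 3, 19/7, 193/71, …` of `e`
(`A_0 = 1, A_1 = 3, B_0 = B_1 = 1`, both with the recurrence `Z_(n+2) = (4 n + 6) Z_(n+1) + Z_n`),
let `W_n(u, v) = n! (u B_n + v A_n)` for integers `u`, `v`, and let `‖x‖` be the distance of `x` to
the nearest integer. For every real number `x` either `n² ‖W_n(u, v) x‖ > κ` infinitely often for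
each `κ < 1/5`, or `‖W_n(u, v) x‖ = O(4^(-n))`, and the second case means that
`(u + v e) x ∈ ℚ + ℚ e`. So all the relations `x = (a + b e) / (u + v e)` are seen in a lattice of
explicit sequences. For `x = π` the sequence of `(u, v) = (1, 0)` is `O(4^(-n))` if `π + e` or
`π - e` or `π / e` is rational, and the sequence of `(u, v) = (0, 1)` is `O(4^(-n))` if `π e` is
rational.
-/

set_option autoImplicit false

namespace Pool.Agent.Results.MP_a2f59b_nt.TwoSequenceCriterion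

open Filter

/-- `B_0 = B_1 = 1`, `B_(n+2) = (4 n + 6) B_(n+1) + B_n` -/
def B : ℕ → ℕ
  | 0 => 1
  | 1 => 1
  | (n + 2) => (4 * n + 6) * B (n + 1) + B n

/-- `A_0 = 1`, `A_1 = 3`, `A_(n+2) = (4 n + 6) A_(n+1) + A_n` -/
def A : ℕ → ℕ
  | 0 => 1
  | 1 => 3
  | (n + 2) => (4 * n + 6) * A (n + 1) + A n

/-- `W_n(u, v) = n! (u B_n + v A_n)` -/
def W (u v : ℤ) (n : ℕ) : ℤ := n.factorial * (u * B n + v * A n)

/-- the distance of `x` to the nearest integer -/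
noncomputable def dist1 (x : ℝ) : ℝ := |x - round x|

theorem B_eq : ∀ n : ℕ, B n = Pool.Agent.H43R2.Cplx.EMeas.q n ∧
    B (n + 1) = Pool.Agent.H43R2.Cplx.EMeas.q (n + 1) := by
  intro n
  induction n with
  | zero => exact ⟨rfl, rfl⟩
  | succ n ih =>
    refine ⟨ih.2, ?_⟩
    have h : Pool.Agent.H43R2.Cplx.EMeas.q (n + 1 + 1) =
      (4 * n + 6) * Pool.Agent.H43R2.Cplx.EMeas.q (n + 1) + Pool.Agent.H43R2.Cplx.EMeas.q n := rfl
    have h' : B (n + 1 + 1) = (4 * n + 6) * B (n + 1) + B n := rfl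
    rw [h, h', ih.1, ih.2]

theorem A_eq : ∀ n : ℕ, A n = Pool.Agent.H43R2.Cplx.EMeas.r n ∧
    A (n + 1) = Pool.Agent.H43R2.Cplx.EMeas.r (n + 1) := by
  intro n
  induction n with
  | zero => exact ⟨rfl, rfl⟩
  | succ n ih =>
    refine ⟨ih.2, ?_⟩
    have h : Pool.Agent.H43R2.Cplx.EMeas.r (n + 1 + 1) =
      (4 * n + 6) * Pool.Agent.H43R2.Cplx.EMeas.r (n + 1) + Pool.Agent.H43R2.Cplx.EMeas.r n := rfl
    have h' : A (n + 1 + 1) = (4 * n + 6) * A (n + 1) + A n := rfl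
    rw [h, h', ih.1, ih.2]

theorem W_eq (u v : ℤ) (n : ℕ) :
    W u v n = u * Pool.Agent.NH22.Seq.M n + v * Pool.Agent.NH22.Seq.M' n := by
  unfold W Pool.Agent.NH22.Seq.M Pool.Agent.NH22.Seq.M'
  rw [(B_eq n).1, (A_eq n).1]
  push_cast
  ring

theorem up {x : ℝ} {u v : ℤ} (h : ∃ a b : ℚ, (u + v * Real.exp 1) * x = a + b * Real.exp 1) :
    ∃ C : ℝ, ∀ n : ℕ, dist1 (W u v n * x) ≤ C / 4 ^ n := by
  obtain ⟨C, hC⟩ := Pool.Agent.NH22.TwoSeq.small_of_mem' h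
  refine ⟨C, fun n => ?_⟩
  rw [W_eq]
  exact hC n

theorem down {x : ℝ} {u v : ℤ} {κ : ℝ} (hκ : κ < 1 / 5)
    (h : ∀ᶠ n : ℕ in atTop, (n : ℝ) ^ 2 * dist1 (W u v n * x) ≤ κ) :
    ∃ a b : ℚ, (u + v * Real.exp 1) * x = a + b * Real.exp 1 := by
  refine Pool.Agent.NH22.TwoSeq.mem_of_small' hκ ?_
  filter_upwards [h] with n hn
  rw [W_eq] at hn
  exact hn

/-- **(1)** For every real number `x` and all integers `u`, `v` the following are equivalent:
`(u + v e) x ∈ ℚ + ℚ e`; there is `κ < 1/5` such that `n² ‖W_n(u, v) x‖ ≤ κ` for all large `n`; there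
is `C` such that `‖W_n(u, v) x‖ ≤ C / 4^n` for all `n`.

**(2)** For every real number `x` the numbers `1, e, x, e x` are linearly independent over `ℚ` if
and only if for all integers `u`, `v`, not both zero, and every `κ < 1/5` there are infinitely many
`n` with `n² ‖W_n(u, v) x‖ > κ`.

**(3)** If one of `π + e`, `π - e`, `π / e` is rational then `‖W_n(1, 0) π‖ = O(4^(-n))`, and if
`π e` is rational then `‖W_n(0, 1) π‖ = O(4^(-n))`. -/
theorem result :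
    (∀ (x : ℝ) (u v : ℤ), List.TFAE [
      ∃ a b : ℚ, (u + v * Real.exp 1) * x = a + b * Real.exp 1,
      ∃ κ : ℝ, κ < 1 / 5 ∧ ∀ᶠ n : ℕ in atTop, (n : ℝ) ^ 2 * dist1 (W u v n * x) ≤ κ,
      ∃ C : ℝ, ∀ n : ℕ, dist1 (W u v n * x) ≤ C / 4 ^ n]) ∧
    (∀ x : ℝ, LinearIndependent ℚ ![(1 : ℝ), Real.exp 1, x, Real.exp 1 * x] ↔
      ∀ u v : ℤ, ¬ (u = 0 ∧ v = 0) → ∀ κ : ℝ, κ < 1 / 5 →
        ∃ᶠ n : ℕ in atTop, κ < (n : ℝ) ^ 2 * dist1 (W u v n * x)) ∧
    ((¬ Irrational (Real.pi + Real.exp 1) ∨ ¬ Irrational (Real.pi - Real.exp 1) ∨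
        ¬ Irrational (Real.pi / Real.exp 1) →
        ∃ C : ℝ, ∀ n : ℕ, dist1 (W 1 0 n * Real.pi) ≤ C / 4 ^ n) ∧
      (¬ Irrational (Real.pi * Real.exp 1) →
        ∃ C : ℝ, ∀ n : ℕ, dist1 (W 0 1 n * Real.pi) ≤ C / 4 ^ n)) := by
  have h32 : ∀ (x : ℝ) (u v : ℤ), (∃ C : ℝ, ∀ n : ℕ, dist1 (W u v n * x) ≤ C / 4 ^ n) →
      ∃ κ : ℝ, κ < 1 / 5 ∧ ∀ᶠ n : ℕ in atTop, (n : ℝ) ^ 2 * dist1 (W u v n * x) ≤ κ := by
    rintro x u v ⟨C, hC⟩
    refine ⟨1 / 10, by norm_num, ?_⟩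
    have h := Pool.Agent.NH22.Seq.tend_four C
    filter_upwards [h.eventually_le_const (show (0 : ℝ) < 1 / 10 by norm_num)] with n hn
    exact (mul_le_mul_of_nonneg_left (hC n) (by positivity)).trans hn
  refine ⟨fun x u v => ?_, fun x => ?_, ?_, ?_⟩
  · tfae_have 1 → 3 := up
    tfae_have 3 → 2 := h32 x u v
    tfae_have 2 → 1 := fun ⟨κ, hκ, h⟩ => down hκ h
    tfae_finish
  · rw [Pool.Agent.NH22.TwoSeq.li4_iff]
    constructor
    · intro h u v huv κ hκ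
      rw [Filter.Frequently]
      intro h2
      apply h u v huv
      refine down hκ ?_
      filter_upwards [h2] with n hn
      exact not_lt.mp hn
    · rintro h u v huv hmem
      obtain ⟨κ, hκ, h1⟩ := h32 x u v (up hmem)
      obtain ⟨n, hn1, hn2⟩ := ((h u v huv κ hκ).and_eventually h1).exists
      linarith
  · have hrat : ∀ z : ℝ, ¬ Irrational z → ∃ r : ℚ, (r : ℝ) = z := by
      intro z hz
      rw [Irrational, not_not] at hz
      exact hz
    rintro (h | h | h)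
    · obtain ⟨r, hr⟩ := hrat _ h
      exact up ⟨r, -1, by push_cast; linarith⟩
    · obtain ⟨r, hr⟩ := hrat _ h
      exact up ⟨r, 1, by push_cast; linarith⟩
    · obtain ⟨r, hr⟩ := hrat _ h
      have he : Real.exp 1 ≠ 0 := (Real.exp_pos 1).ne'
      refine up ⟨0, r, ?_⟩
      rw [hr]
      push_cast
      field_simp
      ring
  · intro h
    rw [Irrational, not_not] at h
    obtain ⟨r, hr⟩ := h
    exact up ⟨r, 0, by push_cast; linarith⟩

end Pool.Agent.Results.MP_a2f59b_nt.TwoSequenceCriterion
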